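import Pool.Agent.Helper77.HE.SheetG2
import Pool.Agent.Helper2.HN.LOCA

/-! Sheet G2, row LOCA2: the flag at a pole place, `c` of any sign (edit of Helper2/HN/LOCA). -/

set_option autoImplicit false

namespace Pool.Agent.Helper84.HG2

open Polynomial Finset Pool.Agent.Helper71.JN Pool.Agent.Helper71.HN Pool.Agent.Helper77.HE
  Pool.Agent.Helper71.HX Pool.Agent.Helper2.HX Pool.Agent.Helper77.HM

/-- (LOCA2) -/
theorem LOCA2 (hDIV : ST_DIV) (hSQR : ST_SQR) : ST_LOCA2 := by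
  classical
  intro F Ω _ _ _ _ K v g N f lam c x y t₀ hv hF hfm hfd hcu hlam hx ht₀ hvt hclam hxt
  have hu := hv.1
  have hx0 : x ≠ 0 := by
    rintro rfl
    rw [map_zero] at hx
    exact (Real.exp_pos lam).ne hx
  have hvi : v x⁻¹ = Real.exp (-lam) := by
    rw [map_inv₀, hx, Real.exp_neg]
  have hvi1 : v x⁻¹ ≤ 1 := by
    rw [hvi]
    exact Real.exp_le_one_iff.2 (by linarith)
  obtain ⟨J, hJ⟩ := exists_nat_ge ((2 * N + g + 1) * (2 * lam - c) / lam)
  rw [div_le_iff₀ hlam] at hJ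
  obtain ⟨φ, hφ⟩ := hSQR F Ω v g J f lam x y hv hF hfm hfd hcu hlam hx
  obtain ⟨t, rfl⟩ : ∃ t : K, (t : Ω) = t₀ := ⟨⟨t₀, ht₀⟩, rfl⟩
  refine ⟨fun b => flagW g N (φ.map (algebraMap F K)) t b, fun b _ => flagW_dim _ _ _ _ _, ?_⟩
  intro b hb u hub huv
  have hmon : ((X - C t) ^ b : K[X]).Monic := (monic_X_sub_C t).pow b
  have hdvd := flagW_dvd g N (φ.map (algebraMap F K)) t b u hub
  have hCm : ∀ a : K, v (a : Ω) ≤ 1 → (C a : K[X]) ∈ lifts (vr K v hu).subtype := by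
    intro a ha
    exact C_mem_lifts (vr K v hu).subtype ⟨a, ha⟩
  have hφm : φ.map (algebraMap F K) ∈ lifts (vr K v hu).subtype := by
    rw [← ip_iff]
    intro i
    rw [coeff_map]
    by_cases h0 : φ.coeff i = 0
    · rw [h0, map_zero, ZeroMemClass.coe_zero, map_zero]
      exact zero_le_one
    · exact (hF _ h0).le
  have hG1 : ∀ i, v (((X - C t) ^ b : K[X]).coeff i : Ω) ≤ 1 := by
    rw [ip_iff K v hu]
    refine pow_mem ?_ b
    rw [sub_eq_add_neg, ← C_neg]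
    refine add_mem (X_mem_lifts _) (hCm _ ?_)
    rw [NegMemClass.coe_neg, v.map_neg]
    exact hvt
  have hP1 : ∀ i, v ((psiF g N (φ.map (algebraMap F K)) u).coeff i : Ω) ≤ 1 := by
    rw [ip_iff K v hu, psiF]
    refine add_mem (sum_mem fun n _ => mul_mem (hCm _ (huv _)) (X_pow_mem_lifts _ _))
      (mul_mem (sum_mem fun n _ => mul_mem (hCm _ (huv _)) (X_pow_mem_lifts _ _)) hφm)
  obtain ⟨Q, hQ, hQ1⟩ := hDIV F Ω K v _ _ hu hmon hG1 hP1 hdvd
  have hA : v (aeval x⁻¹ (psiF g N (φ.map (algebraMap F K)) u)) ≤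
      Real.exp (b * (c - 2 * lam)) := by
    rw [hQ, map_mul, map_mul, map_pow, map_pow, map_sub, aeval_X, aeval_C]
    calc v (x⁻¹ - algebraMap K Ω t) ^ b * v (aeval x⁻¹ Q)
        ≤ Real.exp (c - 2 * lam) ^ b * 1 :=
          mul_le_mul (pow_le_pow_left₀ (v.nonneg _) hxt b) (aeval_ip K v hu Q hQ1 hvi1)
            (v.nonneg _) (by positivity)
      _ = Real.exp (b * (c - 2 * lam)) := by rw [mul_one, ← Real.exp_nat_mul]
  have hB : v ((∑ j : Fin N, (u (Sum.inr j) : Ω) * x⁻¹ ^ (N - 1 - (j : ℕ))) *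
      (y * x⁻¹ ^ (g + 1) - aeval x⁻¹ φ)) ≤ Real.exp (b * (c - 2 * lam)) := by
    rw [map_mul]
    calc v (∑ j : Fin N, (u (Sum.inr j) : Ω) * x⁻¹ ^ (N - 1 - (j : ℕ))) *
          v (y * x⁻¹ ^ (g + 1) - aeval x⁻¹ φ)
        ≤ 1 * Real.exp (-(J * lam)) := by
          refine mul_le_mul ?_ hφ (v.nonneg _) zero_le_one
          refine v_sum_le v hu _ _ zero_le_one fun j _ => ?_
          rw [map_mul, map_pow]
          exact mul_le_one₀ (huv _) (by positivity) (pow_le_one₀ (v.nonneg _) hvi1)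
      _ = Real.exp (-(J * lam)) := one_mul _
      _ ≤ Real.exp (b * (c - 2 * lam)) := by
          refine Real.exp_le_exp.2 ?_
          have h1 : (b : ℝ) ≤ 2 * N + g + 1 := by exact_mod_cast hb.le
          have h2 : (b : ℝ) * (2 * lam - c) ≤ (2 * N + g + 1) * (2 * lam - c) :=
            mul_le_mul_of_nonneg_right h1 (by linarith)
          linarith
  rw [psi_id K g N φ x y hx0 u, map_mul, map_pow, hx, ← Real.exp_nat_mul, Real.exp_add]
  push_cast
  exact mul_le_mul_of_nonneg_left ((hu _ _).trans (max_le hA hB)) (Real.exp_pos _).le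

end Pool.Agent.Helper84.HG2
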